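import Pool.Agent.H705.RO.Fin4

/-!
# Primes in arithmetic progressions if only the phases of the zeros of the Dirichlet L-functions are random

Under the generalized Riemann hypothesis `ψ (x; q, a) = (x - ∑_χ ∑_{γ ≥ 0} 2 Re (conj χ(a) x ^ ρ / ρ)) / φ (q)` up to a small error; the
sum is over the characters `χ` modulo `q` and the zeros `ρ = 1/2 + i γ`, `γ ≥ 0`, of `L (s, χ)` (the zeros with `γ < 0` are the
conjugates of those of the conjugate characters). We keep the ordinates and multiply the terms by `exp (2 π i v)` with random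
numbers `v`, uniform on `[0, 1]`: the `n`-th zero of the `i`-th character modulo `q` has the number `v_m`, `m = f q i n`, where
`v_0, v_1, …` are independent (`v m` is the second coordinate of `X m`) and different zeros of the same modulus have different `m`;
zeros of different moduli may share a number (for instance those of `χ` and of a character induced by `χ`).
-/

set_option autoImplicit false

namespace Pool.Agent.Results.MP_848d44_nt.RandomPhases

open MeasureTheory ProbabilityTheory Filter Topology Finset Pool.Agent.H705.RO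

/-- The random numbers exist. For every `c > 0` there is a constant `K` such that for all ordinates `γ q i n ≥ 0`, `i < φ (q)`, with
`γ q i n + 1 ≥ c (n + 1) / log ((q + 1) (n + 2))`, all characters `χ q i` modulo `q`, and all `f` which are injective for each modulus:
almost surely for ALL large real `x`, all `1 ≤ q ≤ x` and all `0 ≤ a < q` the series for `ψ (x; q, a)` converges and
`|ψ (x; q, a) - x / φ (q)| ≤ K √(x / φ (q)) (log x) ^ (3/2)`. -/
theorem result :
    (∃ (Ω : Type) (_ : MeasurableSpace Ω) (P : Measure Ω) (X : ℕ → Ω → ℝ × ℝ), Model P X) ∧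
    ∀ c : ℝ, 0 < c → ∃ K : ℝ, 0 < K ∧
      ∀ (Ω : Type) [MeasurableSpace Ω] (P : Measure Ω) (X : ℕ → Ω → ℝ × ℝ), Model P X →
        ∀ (χ : (q : ℕ) → ℕ → DirichletCharacter ℂ q) (γ : ℕ → ℕ → ℕ → ℝ) (f : ℕ → ℕ → ℕ → ℕ),
          OrdD c Nat.totient γ → InjD Nat.totient f →
          ∀ᵐ ω ∂P, ∀ᶠ x : ℝ in atTop, ∀ q a : ℕ, 1 ≤ q → (q : ℝ) ≤ x → a < q →
            ∃ ψ : ℝ,
              Tendsto (fun N : ℕ => (x - ∑ n ∈ range N, ∑ i ∈ range q.totient,
                2 * (star (χ q i (a : ZMod q)) * ((x : ℂ) ^ (1 / 2 + (γ q i n : ℂ) * Complex.I) /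
                    (1 / 2 + (γ q i n : ℂ) * Complex.I)) *
                  Complex.exp (2 * (Real.pi : ℂ) * Complex.I * (((X (f q i n) ω).2 : ℝ) : ℂ))).re) / q.totient)
                atTop (𝓝 ψ) ∧
              |ψ - x / q.totient| ≤ K * Real.sqrt (x / q.totient) * Real.log x ^ (3 / 2 : ℝ) :=
  Pool.Agent.H705.RO.main4

end Pool.Agent.Results.MP_848d44_nt.RandomPhases
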