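import Mathlib
import Pool.Agent.H527.G.G14

/-! For almost all moduli `q` and almost all tuples of classes modulo `q`, the errors in the prime number theorem for
these classes show, at some common place, every prescribed matrix of signs. -/

set_option autoImplicit false

namespace Pool.Agent.Results.MP_848d44_nt.SignMatricesInWindows

open Finset Filter Topology

/-- `ψ(x, q, a)`, the sum of the von Mangoldt function over the `n ≤ x` with `n ≡ a` modulo `q` -/
noncomputable def psi (x q a : ℕ) : ℝ := ∑ n ∈ (Icc 1 x).filter (fun n => n ≡ a [MOD q]), ArithmeticFunction.vonMangoldt n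

/-- the matrix of signs `s` occurs for the classes `a i` modulo `q`: for some `x` with
`q ≤ x ≤ q exp((log q) ^ ε)`, for all `i`, `j` and all `h` with `q (log q) ^ B j ≤ h ≤ Λ q (log q) ^ B j` the
difference `ψ(x + h, q, a i) - ψ(x, q, a i)` is at least `(1 + δ) h / φ(q)` if `s i j` is true, and at most
`(1 - δ) h / φ(q)` if `s i j` is false -/
def Occurs {J K : ℕ} (B : Fin J → ℝ) (ε δ Λ : ℝ) (q : ℕ) (a : Fin K → ℕ) (s : Fin K → Fin J → Bool) : Prop :=
  ∃ x : ℕ, q ≤ x ∧ (x : ℝ) ≤ q * Real.exp ((Real.log q) ^ ε) ∧ ∀ i j, ∀ h : ℕ,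
    q * (Real.log q) ^ B j ≤ (h : ℝ) → (h : ℝ) ≤ Λ * (q * (Real.log q) ^ B j) →
      (s i j = true → (1 + δ) * ((h : ℝ) / Nat.totient q) ≤ psi (x + h) q (a i) - psi x q (a i)) ∧
      (s i j = false → psi (x + h) q (a i) - psi x q (a i) ≤ (1 - δ) * ((h : ℝ) / Nat.totient q))

/-- the tuples of reduced classes modulo `q` (represented in `(0, q]`) for which some matrix of signs does not occur -/
def exceptional {J : ℕ} (K : ℕ) (B : Fin J → ℝ) (ε δ Λ : ℝ) (q : ℕ) : Set (Fin K → ℕ) :=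
  {a | (∀ i, 0 < a i ∧ a i ≤ q ∧ (a i).Coprime q) ∧ ¬ ∀ s : Fin K → Fin J → Bool, Occurs B ε δ Λ q a s}

theorem result {J K : ℕ} (B : Fin J → ℝ) (hB1 : ∀ j, 1 < B j) (hB : StrictMono B) (ε : ℝ) (hε : 0 < ε) :
    ∃ δ : ℝ, 0 < δ ∧ ∀ Λ η : ℝ, 0 < η → Tendsto (fun X : ℕ => (Set.ncard {q : ℕ | 1 ≤ q ∧ q ≤ X ∧
      ¬ ((exceptional K B ε δ Λ q).ncard : ℝ) ≤ η * (Nat.totient q : ℝ) ^ K} : ℝ) / X) atTop (𝓝 0) := by
  classical
  obtain ⟨δ, hδ, h⟩ := Pool.Agent.H527.G.joint_signs (K := K) B hB1 hB ε hε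
  refine ⟨δ, hδ, fun Λ η hη => ?_⟩
  refine (h Λ η hη).congr fun X => ?_
  congr 2
  have h1 : ∀ q : ℕ, (exceptional K B ε δ Λ q).ncard = ((Pool.Agent.H527.G.Tp K q).filter (fun c =>
      ¬ ∀ s : Fin K → Fin J → Bool, Pool.Agent.H527.G.Fits B ε δ Λ q c s)).card := by
    intro q
    rw [← Set.ncard_coe_finset]
    congr 1
    ext a
    rw [Finset.mem_coe, mem_filter]
    unfold exceptional Pool.Agent.H527.G.Tp Pool.Agent.H527.G.Rd
    rw [Set.mem_setOf_eq, Fintype.mem_piFinset]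
    refine and_congr (forall_congr' fun i => ?_) Iff.rfl
    rw [mem_filter, mem_Ioc, and_assoc]
  rw [← Set.ncard_coe_finset]
  congr 1
  ext q
  rw [Finset.mem_coe, mem_filter, mem_Icc, Set.mem_setOf_eq, and_assoc, h1 q]

end Pool.Agent.Results.MP_848d44_nt.SignMatricesInWindows
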