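import Mathlib
import Pool.Agent.H527.G.G18

/-! For almost all moduli `q` and almost all tuples of classes modulo `q`, the normalised numbers of primes of these
classes in common windows come near to every vector of a fixed box around `(1, ..., 1)`; in particular the classes
are in every possible order. -/

set_option autoImplicit false

namespace Pool.Agent.Results.MP_848d44_nt.VectorsAndOrders

open Finset Filter Topology

/-- `ψ(x, q, a)`, the sum of the von Mangoldt function over the `n ≤ x` with `n ≡ a` modulo `q` -/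
noncomputable def psi (x q a : ℕ) : ℝ := ∑ n ∈ (Icc 1 x).filter (fun n => n ≡ a [MOD q]), ArithmeticFunction.vonMangoldt n

/-- the vector `t` is approached by the classes `a i` modulo `q`: for some `x` with `q ≤ x ≤ q exp((log q) ^ ε)`, for
all `i` and all `h` with `q (log q) ^ b ≤ h ≤ Λ q (log q) ^ b` the difference of `ψ(x + h, q, a i) - ψ(x, q, a i)` and
`t i * h / φ(q)` is at most `κ h / φ(q)` -/
def Near {K : ℕ} (b ε κ Λ : ℝ) (q : ℕ) (a : Fin K → ℕ) (t : Fin K → ℝ) : Prop :=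
  ∃ x : ℕ, q ≤ x ∧ (x : ℝ) ≤ q * Real.exp ((Real.log q) ^ ε) ∧ ∀ i, ∀ h : ℕ,
    q * (Real.log q) ^ b ≤ (h : ℝ) → (h : ℝ) ≤ Λ * (q * (Real.log q) ^ b) →
      |psi (x + h) q (a i) - psi x q (a i) - t i * ((h : ℝ) / Nat.totient q)| ≤ κ * ((h : ℝ) / Nat.totient q)

/-- the classes `a i` modulo `q` are in the order `σ` with the gap `γ`: for some `x` with
`q ≤ x ≤ q exp((log q) ^ ε)`, for all `i < j` and all `h` with `q (log q) ^ b ≤ h ≤ Λ q (log q) ^ b` the increment of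
`ψ` from `x` to `x + h` in the class `a (σ j)` exceeds the one in the class `a (σ i)` by at least `γ h / φ(q)` -/
def Ordered {K : ℕ} (b ε γ Λ : ℝ) (q : ℕ) (a : Fin K → ℕ) (σ : Equiv.Perm (Fin K)) : Prop :=
  ∃ x : ℕ, q ≤ x ∧ (x : ℝ) ≤ q * Real.exp ((Real.log q) ^ ε) ∧ ∀ i j, i < j → ∀ h : ℕ,
    q * (Real.log q) ^ b ≤ (h : ℝ) → (h : ℝ) ≤ Λ * (q * (Real.log q) ^ b) →
      (psi (x + h) q (a (σ i)) - psi x q (a (σ i))) + γ * ((h : ℝ) / Nat.totient q) ≤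
        psi (x + h) q (a (σ j)) - psi x q (a (σ j))

/-- the tuples of reduced classes modulo `q` (represented in `(0, q]`) which do not approach some vector of the box,
or which are not in some order -/
def exceptional (K : ℕ) (b ε δ κ Λ : ℝ) (q : ℕ) : Set (Fin K → ℕ) :=
  {a | (∀ i, 0 < a i ∧ a i ≤ q ∧ (a i).Coprime q) ∧
    ¬ ((∀ t : Fin K → ℝ, (∀ i, |t i - 1| ≤ δ) → Near b ε κ Λ q a t) ∧
      ∀ σ : Equiv.Perm (Fin K), Ordered b ε (δ / K) Λ q a σ)}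

theorem order_of_near {K : ℕ} {b ε δ κ Λ : ℝ} {q : ℕ} {a : Fin K → ℕ} (hδ : 0 < δ) (hκ : κ ≤ δ / (2 * K))
    (h : ∀ t : Fin K → ℝ, (∀ i, |t i - 1| ≤ δ) → Near b ε κ Λ q a t) (σ : Equiv.Perm (Fin K)) :
    Ordered b ε (δ / K) Λ q a σ := by
  obtain ⟨x, h1, h2, h3⟩ := h (fun i => 1 - δ + 2 * δ * ((σ.symm i : ℕ) : ℝ) / K) (by
    intro i
    have hK : (0 : ℝ) < K := by
      have : 0 < K := lt_of_le_of_lt (Nat.zero_le _) i.2
      exact_mod_cast this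
    have e1 : ((σ.symm i : ℕ) : ℝ) ≤ K := by exact_mod_cast (σ.symm i).2.le
    have e2 : 0 ≤ 2 * δ * ((σ.symm i : ℕ) : ℝ) / K := by positivity
    have e3 : 2 * δ * ((σ.symm i : ℕ) : ℝ) / K ≤ 2 * δ := by
      rw [div_le_iff₀ hK]
      gcongr
    rw [abs_le]
    constructor <;> linarith)
  refine ⟨x, h1, h2, fun i j hij m hm1 hm2 => ?_⟩
  have hK : (0 : ℝ) < K := by
    have : 0 < K := lt_of_le_of_lt (Nat.zero_le _) i.2
    exact_mod_cast this
  have a1 := h3 (σ i) m hm1 hm2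
  have a2 := h3 (σ j) m hm1 hm2
  beta_reduce at a1 a2
  rw [Equiv.symm_apply_apply] at a1 a2
  obtain ⟨M, hM⟩ : ∃ M : ℝ, M = (m : ℝ) / Nat.totient q := ⟨_, rfl⟩
  have hM0 : 0 ≤ M := by rw [hM]; positivity
  rw [← hM] at a1 a2 ⊢
  have hij' : ((i : ℕ) : ℝ) + 1 ≤ ((j : ℕ) : ℝ) := by exact_mod_cast hij
  have e1 : (1 - δ + 2 * δ * ((i : ℕ) : ℝ) / K) + 2 * (δ / K) ≤ 1 - δ + 2 * δ * ((j : ℕ) : ℝ) / K := by
    have e2 : 2 * δ * ((i : ℕ) : ℝ) / K + 2 * (δ / K) = 2 * δ * (((i : ℕ) : ℝ) + 1) / K := by ring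
    have e3 : 2 * δ * (((i : ℕ) : ℝ) + 1) / K ≤ 2 * δ * ((j : ℕ) : ℝ) / K := by gcongr
    linarith
  have e4 : κ ≤ δ / K / 2 := by
    refine hκ.trans (le_of_eq ?_)
    field_simp
  have a3 := (abs_le.1 a1).2
  have a4 := (abs_le.1 a2).1
  have e5 := mul_le_mul_of_nonneg_right e1 hM0
  have e6 := mul_le_mul_of_nonneg_right e4 hM0
  rw [add_mul] at e5
  linarith

theorem result (K : ℕ) (b : ℝ) (hb : 1 < b) (ε : ℝ) (hε : 0 < ε) :
    ∃ δ : ℝ, 0 < δ ∧ ∀ κ Λ η : ℝ, 0 < κ → 0 < η → Tendsto (fun X : ℕ => (Set.ncard {q : ℕ | 1 ≤ q ∧ q ≤ X ∧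
      ¬ ((exceptional K b ε δ κ Λ q).ncard : ℝ) ≤ η * (Nat.totient q : ℝ) ^ K} : ℝ) / X) atTop (𝓝 0) := by
  classical
  obtain ⟨δ, hδ, h⟩ := Pool.Agent.H527.G.joint_box K b hb ε hε
  refine ⟨δ, hδ, fun κ Λ η hκ hη => ?_⟩
  obtain ⟨r, hr⟩ : ∃ r : ℝ, r = if K = 0 then κ else min κ (δ / (2 * K)) := ⟨_, rfl⟩
  have hr0 : 0 < r := by
    rw [hr]
    split_ifs with h1
    · exact hκ
    · have : (0 : ℝ) < K := by exact_mod_cast Nat.pos_of_ne_zero h1
      exact lt_min hκ (by positivity)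
  have hr1 : r ≤ κ := by
    rw [hr]
    split_ifs with h1
    · exact le_rfl
    · exact min_le_left _ _
  have hlim := h r Λ η hr0 hη
  refine squeeze_zero (fun X => by positivity) (fun X => ?_) hlim
  have hsub : ∀ q : ℕ, ((exceptional K b ε δ κ Λ q).ncard : ℝ) ≤ (((Pool.Agent.H527.G.Tp K q).filter (fun c =>
      ¬ ∀ t : Fin K → ℝ, (∀ i, |t i - 1| ≤ δ) → Pool.Agent.H527.G.FitsV b ε r Λ q c t)).card : ℝ) := by
    intro q
    rw [← Set.ncard_coe_finset]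
    have h1 : exceptional K b ε δ κ Λ q ⊆ (((Pool.Agent.H527.G.Tp K q).filter (fun c =>
      ¬ ∀ t : Fin K → ℝ, (∀ i, |t i - 1| ≤ δ) → Pool.Agent.H527.G.FitsV b ε r Λ q c t) : Finset (Fin K → ℕ)) : Set (Fin K → ℕ)) := by
      rintro a ⟨ha1, ha2⟩
      rw [Finset.mem_coe, mem_filter]
      refine ⟨?_, fun h3 => ha2 ⟨?_, ?_⟩⟩
      · unfold Pool.Agent.H527.G.Tp Pool.Agent.H527.G.Rd
        rw [Fintype.mem_piFinset]
        intro i
        rw [mem_filter, mem_Ioc, and_assoc]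
        exact ha1 i
      · intro t ht
        exact (h3 t ht).mono (fun i => by rw [sub_self, abs_zero]; linarith)
      · intro σ
        rcases Nat.eq_zero_or_pos K with h4 | h4
        · subst h4
          obtain ⟨x, h5, h6, _⟩ := h3 (fun i => i.elim0) (fun i => i.elim0)
          exact ⟨x, h5, h6, fun i => i.elim0⟩
        · apply order_of_near hδ _ (fun t ht => h3 t ht) σ
          rw [hr, if_neg (by omega)]
          exact min_le_right _ _
    exact_mod_cast Set.ncard_le_ncard h1 (Finset.finite_toSet _)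
  have hcard : (Set.ncard {q : ℕ | 1 ≤ q ∧ q ≤ X ∧
      ¬ ((exceptional K b ε δ κ Λ q).ncard : ℝ) ≤ η * (Nat.totient q : ℝ) ^ K} : ℝ) ≤
      (((Icc 1 X).filter (fun q : ℕ => ¬ (((Pool.Agent.H527.G.Tp K q).filter (fun c =>
      ¬ ∀ t : Fin K → ℝ, (∀ i, |t i - 1| ≤ δ) → Pool.Agent.H527.G.FitsV b ε r Λ q c t)).card : ℝ) ≤
        η * (Nat.totient q : ℝ) ^ K)).card : ℝ) := by
    rw [← Set.ncard_coe_finset]
    have h1 : {q : ℕ | 1 ≤ q ∧ q ≤ X ∧
      ¬ ((exceptional K b ε δ κ Λ q).ncard : ℝ) ≤ η * (Nat.totient q : ℝ) ^ K} ⊆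
      (((Icc 1 X).filter (fun q : ℕ => ¬ (((Pool.Agent.H527.G.Tp K q).filter (fun c =>
      ¬ ∀ t : Fin K → ℝ, (∀ i, |t i - 1| ≤ δ) → Pool.Agent.H527.G.FitsV b ε r Λ q c t)).card : ℝ) ≤
        η * (Nat.totient q : ℝ) ^ K) : Finset ℕ) : Set ℕ) := by
      rintro q ⟨h2, h3, h4⟩
      rw [Finset.mem_coe, mem_filter, mem_Icc]
      exact ⟨⟨h2, h3⟩, fun h5 => h4 ((hsub q).trans h5)⟩
    exact_mod_cast Set.ncard_le_ncard h1 (Finset.finite_toSet _)
  gcongr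

end Pool.Agent.Results.MP_848d44_nt.VectorsAndOrders
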